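import Pool.Agent.W120.WM.Defs2
import Pool.Agent.W892.WM.EF
import Pool.Agent.H295R2.L

set_option autoImplicit false

open MeasureTheory Filter Topology Set

namespace Pool.Agent.W897.WM
open Pool.Agent.W120.WM Pool.Agent.W892.WM

lemma zeta_ne (hRH : RHp) {s : ℂ} (hs : 1 / 2 < s.re) : riemannZeta s ≠ 0 := by
  intro h
  rcases lt_or_ge s.re 1 with h1 | h1
  · have := hRH s ⟨h, by linarith, h1⟩
    linarith
  · exact riemannZeta_ne_zero_of_one_le_re h1 h

lemma Zs_ne (hRH : RHp) {s : ℂ} (hs : 1 / 2 < s.re) : Pool.Agent.H295R2.Zs s ≠ 0 := by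
  by_cases h1 : s = 1
  · subst h1
    exact Pool.Agent.H295R2.Zs_ne_zero_of_one_le (by simp)
  · rw [← Pool.Agent.H295R2.Zs_eq h1]
    exact mul_ne_zero (sub_ne_zero.mpr h1) (zeta_ne hRH hs)

/-- the main bound -/
lemma GG_bound (hRH : RHp) {δ : ℝ} (hδ : 0 < δ) (hδ2 : δ < 1 / 2) {h : ℝ} (hh : 0 < h)
    (hh1 : h ≤ 1) (v : ℝ) : ∃ K : ℝ, 0 < K ∧ ∀ x y : ℝ, 1 / 2 + δ ≤ x → x ≤ 3 / 2 →
      (⟨x, y⟩ : ℂ) ≠ 1 →
      ‖GG h v (⟨x, y⟩ : ℂ)‖ ≤ K * ((1 + |y|) * Real.exp (-(h ^ 2 / 2) * y ^ 2)) := by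
  obtain ⟨C, hC, hb⟩ := Pool.Agent.H295R2.fz_bound (θ := 1 / 2) (σ := 1 / 2 + δ) (ε := 1)
    (by norm_num) (fun s hs => Zs_ne hRH hs) (by linarith) one_pos
  refine ⟨2 * C * Real.exp (9 / 8 + 3 / 2 * |v|), by positivity, ?_⟩
  intro x y hx1 hx2 hne
  have h1 := hb (⟨x, y⟩ : ℂ) hx1 (by simp only; linarith)
  rw [Pool.Agent.H295R2.fz_eq hne, Real.rpow_one] at h1
  simp only at h1
  have hz : riemannZeta (⟨x, y⟩ : ℂ) ≠ 0 := zeta_ne hRH (by simp only; linarith)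
  have hnorm : 1 / 2 ≤ ‖(⟨x, y⟩ : ℂ)‖ := by
    have := Complex.abs_re_le_norm (⟨x, y⟩ : ℂ)
    simp only at this
    have h2 := le_abs_self x
    linarith
  have hni : ‖(⟨x, y⟩ : ℂ)‖⁻¹ ≤ 2 := by
    rw [inv_le_comm₀ (by linarith) two_pos]
    linarith
  unfold GG
  rw [norm_div, norm_mul, EE_norm, div_eq_mul_inv, mul_inv, ← norm_inv (riemannZeta _)]
  have hv : v * x ≤ 3 / 2 * |v| := by
    have h1 : |v * x| ≤ |v| * (3 / 2) := by
      rw [abs_mul]
      apply mul_le_mul_of_nonneg_left _ (abs_nonneg v)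
      rw [abs_le]; constructor <;> linarith
    have := le_abs_self (v * x)
    linarith
  have hexp : h ^ 2 / 2 * (x ^ 2 - y ^ 2) + v * x ≤
      (9 / 8 + 3 / 2 * |v|) + (-(h ^ 2 / 2) * y ^ 2) := by
    have hx3 : x ^ 2 ≤ 9 / 4 := by nlinarith
    have hh2 : h ^ 2 ≤ 1 := by nlinarith
    have hh3 : 0 < h ^ 2 := pow_pos hh 2
    have a1 : h ^ 2 / 2 * x ^ 2 ≤ 9 / 8 := by nlinarith
    nlinarith
  calc Real.exp (h ^ 2 / 2 * (x ^ 2 - y ^ 2) + v * x) *
        (‖(⟨x, y⟩ : ℂ)‖⁻¹ * ‖(riemannZeta (⟨x, y⟩ : ℂ))⁻¹‖)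
      ≤ (Real.exp (9 / 8 + 3 / 2 * |v|) * Real.exp (-(h ^ 2 / 2) * y ^ 2)) *
        (2 * (C * (1 + |y|))) := by
        rw [← Real.exp_add]
        apply mul_le_mul (Real.exp_le_exp.mpr hexp) _ (by positivity) (Real.exp_pos _).le
        exact mul_le_mul hni h1 (norm_nonneg _) two_pos.le
    _ = _ := by ring

lemma line_integrable (hRH : RHp) {δ : ℝ} (hδ : 0 < δ) (hδ2 : δ < 1 / 2) {h : ℝ} (hh : 0 < h)
    (hh1 : h ≤ 1) (v : ℝ) : Integrable (fun t : ℝ => GG h v (⟨1 / 2 + δ, t⟩ : ℂ)) := by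
  obtain ⟨K, hK, hb⟩ := GG_bound hRH hδ hδ2 hh hh1 v
  have hne : ∀ t : ℝ, (⟨1 / 2 + δ, t⟩ : ℂ) ≠ 1 := by
    intro t he
    have := congrArg Complex.re he
    simp only [Complex.one_re] at this
    linarith
  have hmk : Continuous (fun t : ℝ => (⟨1 / 2 + δ, t⟩ : ℂ)) := by
    have : (fun t : ℝ => (⟨1 / 2 + δ, t⟩ : ℂ)) =
        fun t : ℝ => ((1 / 2 + δ : ℝ) : ℂ) + (t : ℂ) * Complex.I := by
      funext t
      exact Complex.mk_eq_add_mul_I _ _
    rw [this]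
    fun_prop
  have hcont : Continuous (fun t : ℝ => GG h v (⟨1 / 2 + δ, t⟩ : ℂ)) := by
    unfold GG
    refine Continuous.div ?_ ?_ ?_
    · unfold EE
      fun_prop
    · refine hmk.mul ?_
      rw [continuous_iff_continuousAt]
      intro t
      exact ContinuousAt.comp (f := fun t : ℝ => (⟨1 / 2 + δ, t⟩ : ℂ))
        (differentiableAt_riemannZeta (hne t)).continuousAt hmk.continuousAt
    · intro t
      refine mul_ne_zero ?_ (zeta_ne hRH (by simp only; linarith))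
      intro he
      have := congrArg Complex.re he
      simp only [Complex.zero_re] at this
      linarith
  have hb2 : 0 < h ^ 2 / 2 := by positivity
  have hi1 : Integrable (fun y : ℝ => Real.exp (-(h ^ 2 / 2) * y ^ 2)) :=
    integrable_exp_neg_mul_sq hb2
  have hi2 : Integrable (fun y : ℝ => |y| * Real.exp (-(h ^ 2 / 2) * y ^ 2)) := by
    have := (integrable_mul_exp_neg_mul_sq hb2).abs
    refine this.congr (ae_of_all _ fun y => ?_)
    simp only [abs_mul, abs_of_pos (Real.exp_pos _)]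
  have hi3 : Integrable (fun y : ℝ => K * ((1 + |y|) * Real.exp (-(h ^ 2 / 2) * y ^ 2))) := by
    refine ((hi1.add hi2).const_mul K).congr (ae_of_all _ fun y => ?_)
    simp only [Pi.add_apply]
    ring
  refine hi3.mono' hcont.aestronglyMeasurable (ae_of_all _ fun y => ?_)
  exact hb _ y le_rfl (by linarith) (hne y)

lemma decay2 (K b : ℝ) (hb : 0 < b) :
    Tendsto (fun k : ℕ => K * ((1 + ((k : ℝ) + 1)) * Real.exp (-b * ((k : ℝ) + 1) ^ 2))) atTop
      (𝓝 0) := by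
  have h2 : Tendsto (fun x : ℝ => x ^ (1 : ℝ) * Real.exp (-b * x)) atTop (𝓝 0) :=
    tendsto_rpow_mul_exp_neg_mul_atTop_nhds_zero 1 b hb
  have h3 : Tendsto (fun k : ℕ => (k : ℝ) + 1) atTop atTop :=
    tendsto_atTop_add_const_right _ _ tendsto_natCast_atTop_atTop
  have h4 : Tendsto (fun k : ℕ => 2 * (((k : ℝ) + 1) ^ (1 : ℝ) * Real.exp (-b * ((k : ℝ) + 1))))
      atTop (𝓝 0) := by
    simpa [Function.comp_def] using (h2.comp h3).const_mul 2
  have h5 : Tendsto (fun k : ℕ => (1 + ((k : ℝ) + 1)) * Real.exp (-b * ((k : ℝ) + 1) ^ 2)) atTop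
      (𝓝 0) := by
    refine squeeze_zero (fun k => by positivity) (fun k => ?_) h4
    have hk : (0 : ℝ) ≤ k := k.cast_nonneg
    rw [Real.rpow_one]
    have h6 : Real.exp (-b * ((k : ℝ) + 1) ^ 2) ≤ Real.exp (-b * ((k : ℝ) + 1)) := by
      apply Real.exp_le_exp.mpr
      have h7 : (k : ℝ) + 1 ≤ ((k : ℝ) + 1) ^ 2 := by nlinarith
      have := mul_le_mul_of_nonneg_left h7 hb.le
      linarith
    have h8 : (1 + ((k : ℝ) + 1)) ≤ 2 * ((k : ℝ) + 1) := by linarith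
    calc (1 + ((k : ℝ) + 1)) * Real.exp (-b * ((k : ℝ) + 1) ^ 2)
        ≤ (2 * ((k : ℝ) + 1)) * Real.exp (-b * ((k : ℝ) + 1)) :=
          mul_le_mul h8 h6 (Real.exp_pos _).le (by linarith)
      _ = _ := by ring
  simpa using h5.const_mul K

theorem inv2 (hINV : T_INV) (hRES : T_RES) : U_INV := by
  intro hRH δ h v hδ hδ2 hh hh1
  have hL := line_integrable hRH hδ hδ2 hh hh1 v
  refine ⟨hL, ?_⟩
  obtain ⟨hI1, hI2⟩ := hINV h v hh
  obtain ⟨K, hK, hb⟩ := GG_bound hRH hδ hδ2 hh hh1 v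
  set U : ℕ → ℝ := fun k => (k : ℝ) + 1 with hU
  have hUpos : ∀ k, 0 < U k := fun k => by
    have : (0 : ℝ) ≤ k := k.cast_nonneg
    simp only [hU]; linarith
  have hres : ∀ k, (∫ x in (1 / 2 + δ)..(3 / 2), GG h v (⟨x, -(U k)⟩ : ℂ)) -
      (∫ x in (1 / 2 + δ)..(3 / 2), GG h v (⟨x, U k⟩ : ℂ))
      + Complex.I * (∫ y in (-(U k))..(U k), GG h v (⟨3 / 2, y⟩ : ℂ))
      - Complex.I * (∫ y in (-(U k))..(U k), GG h v (⟨1 / 2 + δ, y⟩ : ℂ)) = 0 := by
    intro k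
    have hp := hUpos k
    have key := hRES Fz (gg h v) ∅ (1 / 2 + δ) (3 / 2) (-(U k)) (U k) (by linarith)
      (by linarith) Fz_diff (gg_diff h v)
      (by
        intro s hs
        have hre : 1 / 2 + δ ≤ s.re := hs.1.1
        constructor
        · intro h0
          exfalso
          rcases (zero_iff (by linarith)).mp h0 with h | h
          · rw [h] at hre
            simp only [Complex.zero_re] at hre
            linarith
          · have := hRH s h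
            linarith
        · intro h0
          simp at h0)
      (by
        intro ρ hρ
        simp at hρ)
    have e1 : ∀ y : ℝ, y ≠ 0 → ∀ x : ℝ, gg h v (⟨x, y⟩ : ℂ) / Fz ⟨x, y⟩ = GG h v (⟨x, y⟩ : ℂ) := by
      intro y hy x
      apply quot_eq
      intro h
      have := congrArg Complex.im h
      simp at this
      exact hy this
    have e2 : ∀ x : ℝ, x ≠ 1 → ∀ y : ℝ, gg h v (⟨x, y⟩ : ℂ) / Fz ⟨x, y⟩ = GG h v (⟨x, y⟩ : ℂ) := by
      intro x hx y
      apply quot_eq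
      intro h
      have := congrArg Complex.re h
      simp at this
      exact hx this
    simp only [e1 _ hp.ne', e1 _ (neg_ne_zero.mpr hp.ne')] at key
    have e3 : ∀ y : ℝ, gg h v (⟨3 / 2, y⟩ : ℂ) / Fz ⟨3 / 2, y⟩ = GG h v (⟨3 / 2, y⟩ : ℂ) :=
      e2 (3 / 2) (by norm_num)
    have e4 : ∀ y : ℝ, gg h v (⟨1 / 2 + δ, y⟩ : ℂ) / Fz ⟨1 / 2 + δ, y⟩ =
        GG h v (⟨1 / 2 + δ, y⟩ : ℂ) := e2 (1 / 2 + δ) (by linarith)
    simp only [e3, e4] at key
    rw [key]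
    simp
  have hbound : ∀ k, ∀ y : ℝ, |y| = U k →
      ‖∫ x in (1 / 2 + δ)..(3 / 2), GG h v (⟨x, y⟩ : ℂ)‖ ≤
        K * ((1 + U k) * Real.exp (-(h ^ 2 / 2) * (U k) ^ 2)) := by
    intro k y hy
    have hy0 : y ≠ 0 := by
      rintro rfl
      have := hUpos k
      rw [abs_zero] at hy
      linarith
    have := intervalIntegral.norm_integral_le_of_norm_le_const
      (a := 1 / 2 + δ) (b := 3 / 2) (f := fun x => GG h v (⟨x, y⟩ : ℂ))
      (C := K * ((1 + U k) * Real.exp (-(h ^ 2 / 2) * (U k) ^ 2))) (by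
        intro x hx
        rw [uIoc_of_le (by linarith)] at hx
        have hne : (⟨x, y⟩ : ℂ) ≠ 1 := by
          intro he
          have := congrArg Complex.im he
          simp only [Complex.one_im] at this
          exact hy0 this
        have h1 := hb x y hx.1.le hx.2 hne
        have hy2 : y ^ 2 = U k ^ 2 := by rw [← hy, sq_abs]
        rw [hy, hy2] at h1
        exact h1)
    refine this.trans ?_
    have hle : |(3 / 2 : ℝ) - (1 / 2 + δ)| ≤ 1 := by
      rw [abs_le]; constructor <;> linarith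
    have h0 : 0 ≤ K * ((1 + U k) * Real.exp (-(h ^ 2 / 2) * (U k) ^ 2)) := by
      have := hUpos k
      positivity
    calc _ ≤ K * ((1 + U k) * Real.exp (-(h ^ 2 / 2) * (U k) ^ 2)) * 1 :=
          mul_le_mul_of_nonneg_left hle h0
      _ = _ := mul_one _
  have hdec := decay2 K (h ^ 2 / 2) (by positivity)
  have hbot : Tendsto (fun k => ∫ x in (1 / 2 + δ)..(3 / 2), GG h v (⟨x, -(U k)⟩ : ℂ)) atTop
      (𝓝 0) := squeeze_zero_norm (fun k => hbound k _ (by rw [abs_neg, abs_of_pos (hUpos k)])) hdec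
  have htop : Tendsto (fun k => ∫ x in (1 / 2 + δ)..(3 / 2), GG h v (⟨x, U k⟩ : ℂ)) atTop
      (𝓝 0) := squeeze_zero_norm (fun k => hbound k _ (abs_of_pos (hUpos k))) hdec
  have hUt : Tendsto U atTop atTop :=
    tendsto_atTop_add_const_right _ _ tendsto_natCast_atTop_atTop
  have hUb : Tendsto (fun k => -(U k)) atTop atBot := tendsto_neg_atTop_atBot.comp hUt
  have hr := intervalIntegral_tendsto_integral hI1 hUb hUt
  have hl := intervalIntegral_tendsto_integral hL hUb hUt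
  have hlim := ((hbot.sub htop).add (hr.const_mul Complex.I)).sub (hl.const_mul Complex.I)
  have hzero : Tendsto (fun k => (∫ x in (1 / 2 + δ)..(3 / 2), GG h v (⟨x, -(U k)⟩ : ℂ)) -
      (∫ x in (1 / 2 + δ)..(3 / 2), GG h v (⟨x, U k⟩ : ℂ))
      + Complex.I * (∫ y in (-(U k))..(U k), GG h v (⟨3 / 2, y⟩ : ℂ))
      - Complex.I * (∫ y in (-(U k))..(U k), GG h v (⟨1 / 2 + δ, y⟩ : ℂ))) atTop (𝓝 0) := by
    simp only [hres]
    exact tendsto_const_nhds
  have huniq := tendsto_nhds_unique hzero hlim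
  rw [hI2]
  congr 1
  have h3 : Complex.I * (∫ t : ℝ, GG h v (⟨3 / 2, t⟩ : ℂ)) =
      Complex.I * (∫ t : ℝ, GG h v (⟨1 / 2 + δ, t⟩ : ℂ)) := by
    linear_combination -huniq
  exact mul_left_cancel₀ Complex.I_ne_zero h3

end Pool.Agent.W897.WM
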